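import Mathlib

/-!
# Stability of the third-moment Khintchine inequality with the full deficit

There is `C > 0` with `E|S|^3 ≤ E|S_n|^3 - C * Σ (a_i^2 - 1/n)^2` for all `n ≥ 1` and all unit
vectors `a`.
-/

namespace Pool.Agent.Results.MP_223ae3_pr.ThirdMoment

/-- `E|a_1 ε_1 + … + a_n ε_n|^3` for independent uniform random signs `ε_i`, written as the
average over all `2^n` sign patterns. -/
noncomputable def thirdMoment {n : ℕ} (a : Fin n → ℝ) : ℝ :=
  (∑ ε : Fin n → Bool, |∑ i, (if ε i then 1 else -1) * a i| ^ 3) / 2 ^ n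

/-! ### Expectations over signs, for lists of weights -/

/-- `Ex l f = E f(Σ w_k ε_k)`, the `w_k` being the entries of `l` -/
noncomputable def Ex : List ℝ → (ℝ → ℝ) → ℝ
  | [], f => f 0
  | w :: l, f => (Ex l (fun t => f (t + w)) + Ex l (fun t => f (t - w))) / 2

lemma Ex_congr (l : List ℝ) {f g : ℝ → ℝ} (h : ∀ t, f t = g t) : Ex l f = Ex l g := by
  have : f = g := funext h
  rw [this]

lemma Ex_mono (l : List ℝ) : ∀ {f g : ℝ → ℝ}, (∀ t, f t ≤ g t) → Ex l f ≤ Ex l g := by
  induction l with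
  | nil => intro f g h; exact h 0
  | cons w l ih =>
    intro f g h
    have h1 := ih (f := fun t => f (t + w)) (g := fun t => g (t + w)) (fun t => h _)
    have h2 := ih (f := fun t => f (t - w)) (g := fun t => g (t - w)) (fun t => h _)
    simp only [Ex]
    linarith

lemma Ex_const (l : List ℝ) (c : ℝ) : Ex l (fun _ => c) = c := by
  induction l with
  | nil => rfl
  | cons w l ih =>
    simp only [Ex]
    linarith

lemma Ex_nonneg (l : List ℝ) {f : ℝ → ℝ} (h : ∀ t, 0 ≤ f t) : 0 ≤ Ex l f := by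
  rw [← Ex_const l 0]
  exact Ex_mono l h

lemma Ex_add (l : List ℝ) : ∀ (f g : ℝ → ℝ), Ex l (fun t => f t + g t) = Ex l f + Ex l g := by
  induction l with
  | nil => intro f g; rfl
  | cons w l ih =>
    intro f g
    simp only [Ex]
    rw [ih (fun t => f (t + w)) (fun t => g (t + w)), ih (fun t => f (t - w)) (fun t => g (t - w))]
    ring

lemma Ex_smul (l : List ℝ) : ∀ (c : ℝ) (f : ℝ → ℝ), Ex l (fun t => c * f t) = c * Ex l f := by
  induction l with
  | nil => intro c f; rfl
  | cons w l ih =>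
    intro c f
    simp only [Ex]
    rw [ih c (fun t => f (t + w)), ih c (fun t => f (t - w))]
    ring

lemma Ex_sum {ι : Type*} (l : List ℝ) (s : Finset ι) (f : ι → ℝ → ℝ) :
    Ex l (fun t => ∑ k ∈ s, f k t) = ∑ k ∈ s, Ex l (f k) := by
  classical
  induction s using Finset.induction_on with
  | empty => simpa using Ex_const l 0
  | insert a s ha ih =>
    rw [Finset.sum_insert ha, ← ih, ← Ex_add]
    apply Ex_congr
    intro t
    rw [Finset.sum_insert ha]

lemma Ex_append (l l' : List ℝ) : ∀ (f : ℝ → ℝ),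
    Ex (l ++ l') f = Ex l (fun s => Ex l' (fun t => f (s + t))) := by
  induction l with
  | nil =>
    intro f
    simp only [List.nil_append, Ex, zero_add]
  | cons w l ih =>
    intro f
    simp only [List.cons_append, Ex]
    rw [ih, ih]
    congr 2
    · apply Ex_congr
      intro s
      apply Ex_congr
      intro t
      congr 1
      ring
    · apply Ex_congr
      intro s
      apply Ex_congr
      intro t
      congr 1
      ring

lemma Ex_perm {l l' : List ℝ} (h : l.Perm l') : ∀ f : ℝ → ℝ, Ex l f = Ex l' f := by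
  induction h with
  | nil => intro f; rfl
  | cons w _ ih => intro f; simp only [Ex, ih]
  | swap w v l =>
    intro f
    simp only [Ex]
    have e1 : ∀ t : ℝ, t + w + v = t + v + w := fun t => by ring
    have e2 : ∀ t : ℝ, t - w + v = t + v - w := fun t => by ring
    have e3 : ∀ t : ℝ, t + w - v = t - v + w := fun t => by ring
    have e4 : ∀ t : ℝ, t - w - v = t - v - w := fun t => by ring
    simp only [e1, e2, e3, e4]
    ring
  | trans _ _ ih1 ih2 => intro f; rw [ih1, ih2]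

lemma Ex_zero_cons (l : List ℝ) (f : ℝ → ℝ) : Ex (0 :: l) f = Ex l f := by
  simp only [Ex, add_zero, sub_zero]
  ring

lemma Ex_neg_cons (w : ℝ) (l : List ℝ) (f : ℝ → ℝ) : Ex (-w :: l) f = Ex (w :: l) f := by
  simp only [Ex, ← sub_eq_add_neg, sub_neg_eq_add]
  ring

lemma Ex_abs (l : List ℝ) : ∀ f : ℝ → ℝ, Ex (l.map fun w => |w|) f = Ex l f := by
  induction l with
  | nil => intro f; rfl
  | cons w l ih =>
    intro f
    rw [List.map_cons]
    rcases abs_choice w with h | h
    · rw [h]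
      simp only [Ex, ih]
    · rw [h, Ex_neg_cons]
      simp only [Ex, ih]

lemma Ex_comp_neg (l : List ℝ) : ∀ f : ℝ → ℝ, Ex l (fun t => f (-t)) = Ex l f := by
  induction l with
  | nil => intro f; simp [Ex]
  | cons w l ih =>
    intro f
    simp only [Ex]
    have h1 := ih (fun t => f (t - w))
    have h2 := ih (fun t => f (t + w))
    have e1 : ∀ t : ℝ, -(t + w) = -t - w := fun t => by ring
    have e2 : ∀ t : ℝ, -(t - w) = -t + w := fun t => by ring
    simp only [e1, e2]
    rw [h1, h2]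
    ring

lemma Ex_sq (l : List ℝ) : ∀ c : ℝ, Ex l (fun t => (t + c) ^ 2) = (l.map fun w => w ^ 2).sum + c ^ 2 := by
  induction l with
  | nil => intro c; simp [Ex]
  | cons w l ih =>
    intro c
    simp only [Ex, List.map_cons, List.sum_cons]
    have e1 : ∀ t : ℝ, t + w + c = t + (w + c) := fun t => by ring
    have e2 : ∀ t : ℝ, t - w + c = t + (c - w) := fun t => by ring
    simp only [e1, e2]
    rw [ih, ih]
    ring

/-- comparison of the laws of two weighted sums with close weights -/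
lemma Ex_compare (L : List (ℝ × ℝ)) : ∀ (h' h : ℝ → ℝ),
    (∀ s t, |s - t| ≤ (L.map fun p => |p.1 - p.2|).sum → h' s ≤ h t) →
    Ex (L.map Prod.fst) h' ≤ Ex (L.map Prod.snd) h := by
  induction L with
  | nil =>
    intro h' h hh
    simp only [List.map_nil, Ex]
    apply hh
    simp
  | cons p L ih =>
    intro h' h hh
    simp only [List.map_cons, Ex]
    have hs : ((p :: L).map fun p => |p.1 - p.2|).sum =
        |p.1 - p.2| + (L.map fun p => |p.1 - p.2|).sum := by simp
    have h1 := ih (fun t => h' (t + p.1)) (fun t => h (t + p.2)) (by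
      intro s t hst
      apply hh
      rw [hs]
      have : s + p.1 - (t + p.2) = (p.1 - p.2) + (s - t) := by ring
      rw [this]
      exact le_trans (abs_add_le _ _) (by linarith))
    have h2 := ih (fun t => h' (t - p.1)) (fun t => h (t - p.2)) (by
      intro s t hst
      apply hh
      rw [hs]
      have : s - p.1 - (t - p.2) = -(p.1 - p.2) + (s - t) := by ring
      rw [this]
      refine le_trans (abs_add_le _ _) ?_
      rw [abs_neg]
      linarith)
    linarith

/-! ### The pointwise gain of one averaging step -/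

/-- `(|u+s|^3 + |u-s|^3)/2` -/
noncomputable def psi (u s : ℝ) : ℝ := (|u + s| ^ 3 + |u - s| ^ 3) / 2

lemma psi_le {u s : ℝ} (hs : 0 ≤ s) (h : s ≤ u) : psi u s = u ^ 3 + 3 * u * s ^ 2 := by
  rw [psi, abs_of_nonneg (by linarith), abs_of_nonneg (by linarith)]
  ring

lemma psi_ge {u s : ℝ} (hu : 0 ≤ u) (h : u ≤ s) : psi u s = s ^ 3 + 3 * u ^ 2 * s := by
  rw [psi, abs_of_nonneg (by linarith), abs_of_nonpos (by linarith)]
  ring

lemma psi_zero {u : ℝ} (hu : 0 ≤ u) : psi u 0 = u ^ 3 := by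
  rw [psi_le le_rfl hu]
  ring

lemma psi_neg (u s : ℝ) : psi (-u) s = psi u s := by
  have e1 : |-u + s| = |u - s| := by rw [← abs_neg]; congr 1; ring
  have e2 : |-u - s| = |u + s| := by rw [← abs_neg]; congr 1; ring
  rw [psi, psi, e1, e2]
  ring

/-- the gain of one averaging step, conditionally on the rest of the sum -/
noncomputable def gain (u P Q r : ℝ) : ℝ := psi u P + psi u 0 - psi u Q - psi u r

lemma gain_iii {u P Q r : ℝ} (hr : 0 ≤ r) (hu1 : r ≤ u) (hu2 : u ≤ Q) (hQP : Q ≤ P)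
    (hP : P ^ 2 = Q ^ 2 + r ^ 2) :
    gain u P Q r = (P - Q) * (3 * (u - (P + Q) / 2) ^ 2 + (P - Q) ^ 2 / 4) := by
  have hu : 0 ≤ u := le_trans hr hu1
  rw [gain, psi_ge hu (le_trans hu2 hQP), psi_zero hu, psi_ge hu hu2, psi_le hr hu1]
  linear_combination (3 * u) * hP

lemma gain_ii {u P Q r : ℝ} (hr : 0 ≤ r) (hrQ : r ≤ Q) (hu1 : Q ≤ u) (hu2 : u ≤ P)
    (hP : P ^ 2 = Q ^ 2 + r ^ 2) : gain u P Q r = (P - u) ^ 3 := by
  have hQ : 0 ≤ Q := le_trans hr hrQ
  have hu : 0 ≤ u := le_trans hQ hu1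
  rw [gain, psi_ge hu hu2, psi_zero hu, psi_le hQ hu1, psi_le hr (le_trans hrQ hu1)]
  linear_combination (3 * u) * hP

lemma gain_i {u P Q r : ℝ} (hr : 0 ≤ r) (hrQ : r ≤ Q) (hQP : Q ≤ P) (hu2 : P ≤ u)
    (hP : P ^ 2 = Q ^ 2 + r ^ 2) : gain u P Q r = 0 := by
  have hQ : 0 ≤ Q := le_trans hr hrQ
  have hP0 : 0 ≤ P := le_trans hQ hQP
  have hu : 0 ≤ u := le_trans hP0 hu2
  rw [gain, psi_le hP0 hu2, psi_zero hu, psi_le hQ (le_trans hQP hu2),
    psi_le hr (le_trans hrQ (le_trans hQP hu2))]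
  linear_combination (3 * u) * hP

lemma gain_iv {u P Q r : ℝ} (hu : 0 ≤ u) (hur : u ≤ r) (hrQ : r ≤ Q) (hQP : Q ≤ P)
    (hP : P ^ 2 = Q ^ 2 + r ^ 2) :
    (P - Q) * (3 * (r - (P + Q) / 2) ^ 2 + (P - Q) ^ 2 / 4) ≤ gain u P Q r := by
  have hr : 0 ≤ r := le_trans hu hur
  have hPQ : P - Q ≤ r / 2 := by
    by_contra hc
    push Not at hc
    have h1 : (P - Q) * (P + Q) = r ^ 2 := by linear_combination hP
    have h2 : 2 * r ≤ P + Q := by linarith
    rcases eq_or_lt_of_le hr with h | h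
    · rw [← h] at h1 hc
      have : P + Q > 0 := by linarith
      have : 0 < (P - Q) * (P + Q) := mul_pos (by linarith) this
      rw [h1] at this
      norm_num at this
    · nlinarith
  have key : gain u P Q r - (P - Q) * (3 * (r - (P + Q) / 2) ^ 2 + (P - Q) ^ 2 / 4) =
      (r - u) * (3 * (r + u) * (Q + r - P) - (r ^ 2 + r * u + u ^ 2)) := by
    rw [gain, psi_ge hu (le_trans hur (le_trans hrQ hQP)), psi_zero hu,
      psi_ge hu (le_trans hur hrQ), psi_ge hu hur]
    linear_combination (3 * r) * hP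
  have h3 : 0 ≤ 3 * (r + u) * (Q + r - P) - (r ^ 2 + r * u + u ^ 2) := by
    have h4 : (r + u) * (r / 2) ≤ (r + u) * (Q + r - P) :=
      mul_le_mul_of_nonneg_left (by linarith) (by linarith)
    nlinarith
  have h5 : 0 ≤ (r - u) * (3 * (r + u) * (Q + r - P) - (r ^ 2 + r * u + u ^ 2)) :=
    mul_nonneg (by linarith) h3
  linarith

lemma gain_nonneg_aux {u P Q r : ℝ} (hu : 0 ≤ u) (hr : 0 ≤ r) (hrQ : r ≤ Q) (hQP : Q ≤ P)
    (hP : P ^ 2 = Q ^ 2 + r ^ 2) : 0 ≤ gain u P Q r := by
  have hPQ : 0 ≤ P - Q := by linarith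
  rcases le_total u r with h1 | h1
  · exact le_trans (by positivity) (gain_iv hu h1 hrQ hQP hP)
  · rcases le_total u Q with h2 | h2
    · rw [gain_iii hr h1 h2 hQP hP]
      positivity
    · rcases le_total u P with h3 | h3
      · rw [gain_ii hr hrQ h2 h3 hP]
        have : 0 ≤ P - u := by linarith
        positivity
      · rw [gain_i hr hrQ hQP h3 hP]

/-- lower bound of the bracket in case (iii) -/
lemma bracket_lower {u P Q x : ℝ} (hx : 0 < x) (hu : u ≤ 6 / 5 * x) (hPx : 1.414 * x ≤ P) :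
    12 / 1000 * x ^ 2 ≤ 3 * (u - (P + Q) / 2) ^ 2 + (P - Q) ^ 2 / 4 := by
  rcases le_total (1.3 * x) ((P + Q) / 2) with h | h
  · have h1 : x / 10 ≤ (P + Q) / 2 - u := by linarith
    have h2 : (x / 10) ^ 2 ≤ (u - (P + Q) / 2) ^ 2 := by
      have : (u - (P + Q) / 2) ^ 2 = ((P + Q) / 2 - u) ^ 2 := by ring
      rw [this]
      exact pow_le_pow_left₀ (by positivity) h1 2
    nlinarith [sq_nonneg (P - Q)]
  · have h1 : 0.228 * x ≤ P - Q := by linarith
    have h2 : (0.228 * x) ^ 2 ≤ (P - Q) ^ 2 := pow_le_pow_left₀ (by positivity) h1 2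
    nlinarith [sq_nonneg (u - (P + Q) / 2)]

lemma gain_lower_aux {u P Q r x : ℝ} (hx : 0 < x) (hu : 0 ≤ u) (hux : u ≤ 6 / 5 * x) (hr : 0 ≤ r)
    (hrQ : r ≤ Q) (hQr : Q + r = 2 * x) (hP0 : 0 ≤ P) (hP : P ^ 2 = Q ^ 2 + r ^ 2) :
    1 / 2000 * (Q ^ 2 * r ^ 2) ≤ x * gain u P Q r := by
  have hQ : 0 ≤ Q := le_trans hr hrQ
  have hQP : Q ≤ P := by
    apply le_of_sq_le_sq _ hP0
    nlinarith
  have hPx : 1.414 * x ≤ P := by
    apply le_of_sq_le_sq _ hP0
    have : (Q + r) ^ 2 = 4 * x ^ 2 := by rw [hQr]; ring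
    nlinarith [sq_nonneg (Q - r)]
  have hQx : x ≤ Q := by linarith
  have hQ2 : Q ≤ 2 * x := by linarith
  have hP2 : P ≤ 2 * x := by
    apply le_of_sq_le_sq _ (by linarith)
    have : (Q + r) ^ 2 = 4 * x ^ 2 := by rw [hQr]; ring
    nlinarith [mul_nonneg hQ hr]
  have hPQr : r ^ 2 ≤ 4 * x * (P - Q) := by
    have h1 : (P - Q) * (P + Q) = r ^ 2 := by linear_combination hP
    nlinarith
  have hQ4 : Q ^ 2 ≤ 4 * x ^ 2 := by nlinarith
  -- common conclusion for cases (iii) and (iv)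
  have main : ∀ v : ℝ, v ≤ 6 / 5 * x →
      1 / 2000 * (Q ^ 2 * r ^ 2) ≤
        x * ((P - Q) * (3 * (v - (P + Q) / 2) ^ 2 + (P - Q) ^ 2 / 4)) := by
    intro v hv
    have h1 := bracket_lower (Q := Q) hx hv hPx
    have h2 : 0 ≤ x * (P - Q) := mul_nonneg hx.le (by linarith)
    have h3 : x * (P - Q) * (12 / 1000 * x ^ 2) ≤
        x * (P - Q) * (3 * (v - (P + Q) / 2) ^ 2 + (P - Q) ^ 2 / 4) :=
      mul_le_mul_of_nonneg_left h1 h2
    have h4 : r ^ 2 * (12 / 1000 * x ^ 2) ≤ 4 * x * (P - Q) * (12 / 1000 * x ^ 2) :=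
      mul_le_mul_of_nonneg_right hPQr (by positivity)
    have h5 : Q ^ 2 * r ^ 2 ≤ 4 * x ^ 2 * r ^ 2 :=
      mul_le_mul_of_nonneg_right hQ4 (by positivity)
    nlinarith [mul_nonneg (sq_nonneg x) (sq_nonneg r)]
  rcases le_total u r with h1 | h1
  · have h2 := gain_iv hu h1 hrQ hQP hP
    have h3 := main r (by linarith)
    have h4 := mul_le_mul_of_nonneg_left h2 hx.le
    linarith
  · rcases le_total u Q with h2 | h2
    · rw [gain_iii hr h1 h2 hQP hP]
      exact main u hux
    · have h3 : u ≤ P := by linarith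
      rw [gain_ii hr hrQ h2 h3 hP]
      have h4 : 0.214 * x ≤ P - u := by linarith
      have h5 : (0.214 * x) ^ 3 ≤ (P - u) ^ 3 := pow_le_pow_left₀ (by positivity) h4 3
      have h6 : r ≤ x := by linarith
      have h7 : Q ^ 2 ≤ (6 / 5 * x) ^ 2 := pow_le_pow_left₀ hQ (by linarith) 2
      have h8 : r ^ 2 ≤ x ^ 2 := pow_le_pow_left₀ hr h6 2
      have h9 : Q ^ 2 * r ^ 2 ≤ (6 / 5 * x) ^ 2 * x ^ 2 :=
        mul_le_mul h7 h8 (by positivity) (by positivity)
      have h10 : x * (0.214 * x) ^ 3 ≤ x * (P - u) ^ 3 := mul_le_mul_of_nonneg_left h5 hx.le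
      nlinarith [pow_pos hx 4]

lemma gain_neg (u P Q r : ℝ) : gain (-u) P Q r = gain u P Q r := by
  simp only [gain, psi_neg]

lemma gain_nonneg {u P Q r : ℝ} (hr : 0 ≤ r) (hrQ : r ≤ Q) (hP0 : 0 ≤ P)
    (hP : P ^ 2 = Q ^ 2 + r ^ 2) : 0 ≤ gain u P Q r := by
  have hQP : Q ≤ P := by
    apply le_of_sq_le_sq _ hP0
    nlinarith
  rcases le_total 0 u with h | h
  · exact gain_nonneg_aux h hr hrQ hQP hP
  · rw [← gain_neg]
    exact gain_nonneg_aux (by linarith) hr hrQ hQP hP

lemma gain_lower {u P Q r x : ℝ} (hx : 0 < x) (hux : |u| ≤ 6 / 5 * x) (hr : 0 ≤ r)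
    (hrQ : r ≤ Q) (hQr : Q + r = 2 * x) (hP0 : 0 ≤ P) (hP : P ^ 2 = Q ^ 2 + r ^ 2) :
    1 / 2000 * (Q ^ 2 * r ^ 2) ≤ x * gain u P Q r := by
  rcases le_total 0 u with h | h
  · exact gain_lower_aux hx h (le_trans (le_abs_self u) hux) hr hrQ hQr hP0 hP
  · rw [← gain_neg]
    exact gain_lower_aux hx (by linarith) (le_trans (neg_le_abs u) hux) hr hrQ hQr hP0 hP

/-! ### Small ball estimate -/

/-- sorted lists of weights can be paired with small total difference -/
lemma exists_pairs : ∀ (k : ℕ) (l : List ℝ) (x : ℝ), l.length ≤ k → 0 ≤ x →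
    l.Pairwise (fun a b => b ≤ a) → (∀ w ∈ l, 0 ≤ w ∧ w ≤ x) →
    ∃ L : List (ℝ × ℝ), ((L.map Prod.fst ++ L.map Prod.snd).Perm l ∨
        (L.map Prod.fst ++ L.map Prod.snd).Perm (0 :: l)) ∧
      (L.map fun p => |p.1 - p.2|).sum ≤ x ∧
      ((L.map Prod.fst).map fun w => w ^ 2).sum ≤ (l.map fun w => w ^ 2).sum := by
  intro k
  induction k with
  | zero =>
    intro l x hl hx _ _
    have : l = [] := List.length_eq_zero_iff.mp (by omega)
    subst this
    exact ⟨[], Or.inl (by simp), by simpa using hx, by simp⟩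
  | succ k ih =>
    intro l x hl hx hs hw
    match l, hl, hs, hw with
    | [], _, _, _ => exact ⟨[], Or.inl (by simp), by simpa using hx, by simp⟩
    | [w], _, _, hw =>
      refine ⟨[(w, 0)], Or.inr ?_, ?_, ?_⟩
      · simpa using List.Perm.swap 0 w []
      · have := hw w (by simp)
        simp [abs_of_nonneg this.1, this.2]
      · simp
    | w :: v :: l, hl, hs, hw =>
      have hw1 := hw w (by simp)
      have hv1 := hw v (by simp)
      rw [List.pairwise_cons, List.pairwise_cons] at hs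
      have hvw : v ≤ w := hs.1 v (by simp)
      obtain ⟨L, hL1, hL2, hL3⟩ := ih l v (by simp at hl; omega) hv1.1 hs.2.2
        (fun u hu => ⟨(hw u (by simp [hu])).1, hs.2.1 u hu⟩)
      refine ⟨(w, v) :: L, ?_, ?_, ?_⟩
      · have hperm : (((w, v) :: L).map Prod.fst ++ ((w, v) :: L).map Prod.snd).Perm
            (w :: v :: (L.map Prod.fst ++ L.map Prod.snd)) := by
          simp only [List.map_cons, List.cons_append]
          exact List.Perm.cons w List.perm_middle
        rcases hL1 with h | h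
        · left
          exact hperm.trans ((h.cons v).cons w)
        · right
          refine hperm.trans (((h.cons v).cons w).trans ?_)
          exact ((List.Perm.swap 0 v l).cons w).trans (List.Perm.swap 0 w (v :: l))
      · simp only [List.map_cons, List.sum_cons]
        rw [abs_of_nonneg (by linarith)]
        linarith
      · simp only [List.map_cons, List.sum_cons]
        nlinarith [sq_nonneg v]

/-- collision bound: a sum with second moment at most one is within `δ` of an independent copy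
with probability at least `c δ` -/
lemma collision (A : List ℝ) (hA : (A.map fun w => w ^ 2).sum ≤ 1) (δ : ℝ) (hδ : 0 < δ) :
    9 / 16 ≤ (4 / δ + 2) * Ex A (fun s => Ex A (fun t => if |s - t| ≤ δ then 1 else 0)) := by
  classical
  set K : Finset ℤ := Finset.Icc ⌊-2 / δ⌋ ⌊2 / δ⌋ with hK
  set I : ℤ → ℝ → ℝ := fun k s => if ⌊s / δ⌋ = k then 1 else 0 with hI
  have hcard : (K.card : ℝ) ≤ 4 / δ + 2 := by
    rw [hK, Int.card_Icc]
    have h1 : (0 : ℤ) ≤ ⌊2 / δ⌋ + 1 - ⌊-2 / δ⌋ := by
      have h2 : ⌊-2 / δ⌋ ≤ ⌊2 / δ⌋ := by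
        apply Int.floor_le_floor
        exact div_le_div_of_nonneg_right (by norm_num) hδ.le
      omega
    have h3 : (((⌊2 / δ⌋ + 1 - ⌊-2 / δ⌋).toNat : ℤ) : ℝ) = ((⌊2 / δ⌋ + 1 - ⌊-2 / δ⌋ : ℤ) : ℝ) := by
      rw [Int.toNat_of_nonneg h1]
    have h4 : (((⌊2 / δ⌋ + 1 - ⌊-2 / δ⌋).toNat : ℕ) : ℝ) =
        (((⌊2 / δ⌋ + 1 - ⌊-2 / δ⌋).toNat : ℤ) : ℝ) := by norm_cast
    rw [h4, h3]
    push_cast
    have h5 := Int.floor_le (2 / δ)
    have h6 := Int.lt_floor_add_one (-2 / δ)
    have h7 : -2 / δ = -(2 / δ) := by ring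
    have h8 : 4 / δ = 2 / δ + 2 / δ := by ring
    rw [h8]
    rw [h7] at h6 ⊢
    linarith
  have hsum : 3 / 4 ≤ ∑ k ∈ K, Ex A (I k) := by
    rw [← Ex_sum]
    have h1 : Ex A (fun t => 1 + (-1 / 4) * (t + 0) ^ 2) ≤ Ex A (fun t => ∑ k ∈ K, I k t) := by
      apply Ex_mono
      intro t
      rcases le_or_gt |t| 2 with ht | ht
      · have hmem : ⌊t / δ⌋ ∈ K := by
          rw [hK, Finset.mem_Icc]
          rw [abs_le] at ht
          constructor
          · exact Int.floor_le_floor (div_le_div_of_nonneg_right ht.1 hδ.le)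
          · exact Int.floor_le_floor (div_le_div_of_nonneg_right ht.2 hδ.le)
        have : ∑ k ∈ K, I k t = 1 := by
          rw [Finset.sum_eq_single_of_mem _ hmem]
          · simp [hI]
          · intro k _ hk
            simp [hI, hk.symm]
        rw [this]
        nlinarith [sq_nonneg t]
      · have h0 : 0 ≤ ∑ k ∈ K, I k t := by
          apply Finset.sum_nonneg
          intro k _
          simp only [hI]
          split_ifs <;> norm_num
        have : (2 : ℝ) ^ 2 ≤ t ^ 2 := by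
          rw [← sq_abs t]
          exact pow_le_pow_left₀ (by norm_num) ht.le 2
        nlinarith
    rw [Ex_add A (fun _ => 1) (fun t => (-1 / 4) * (t + 0) ^ 2), Ex_const,
      Ex_smul A (-1 / 4) (fun t => (t + 0) ^ 2), Ex_sq] at h1
    linarith
  have hcs : (∑ k ∈ K, Ex A (I k)) ^ 2 ≤ K.card * ∑ k ∈ K, (Ex A (I k)) ^ 2 :=
    sq_sum_le_card_mul_sum_sq
  have hcol : ∑ k ∈ K, (Ex A (I k)) ^ 2 ≤
      Ex A (fun s => Ex A (fun t => if |s - t| ≤ δ then 1 else 0)) := by
    have h1 : ∑ k ∈ K, (Ex A (I k)) ^ 2 = Ex A (fun s => Ex A (fun t => ∑ k ∈ K, I k s * I k t)) := by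
      have : ∀ s, Ex A (fun t => ∑ k ∈ K, I k s * I k t) = ∑ k ∈ K, Ex A (I k) * I k s := by
        intro s
        rw [Ex_sum]
        apply Finset.sum_congr rfl
        intro k _
        rw [Ex_smul]
        ring
      rw [Ex_congr A this, Ex_sum]
      apply Finset.sum_congr rfl
      intro k _
      rw [Ex_smul]
      ring
    rw [h1]
    apply Ex_mono
    intro s
    apply Ex_mono
    intro t
    have h2 : ∑ k ∈ K, I k s * I k t ≤ if ⌊s / δ⌋ = ⌊t / δ⌋ then 1 else 0 := by
      have h3 : ∀ k, I k s * I k t = if k = ⌊s / δ⌋ then (if ⌊s / δ⌋ = ⌊t / δ⌋ then 1 else 0) else 0 := by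
        intro k
        simp only [hI]
        by_cases h4 : ⌊s / δ⌋ = k
        · subst h4
          simp [eq_comm]
        · have h5 : ¬ (k = ⌊s / δ⌋) := fun h => h4 h.symm
          simp [h4, h5]
      simp_rw [h3]
      rw [Finset.sum_ite_eq']
      split_ifs <;> norm_num
    refine le_trans h2 ?_
    by_cases h6 : ⌊s / δ⌋ = ⌊t / δ⌋
    · have h7 := Int.abs_sub_lt_one_of_floor_eq_floor h6
      have h8 : |s - t| ≤ δ := by
        rw [← sub_div, abs_div, abs_of_pos hδ, div_lt_one hδ] at h7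
        exact h7.le
      simp [h6, h8]
    · rw [if_neg h6]
      split_ifs <;> norm_num
  have hE0 : 0 ≤ Ex A (fun s => Ex A (fun t => if |s - t| ≤ δ then 1 else 0)) := by
    refine le_trans ?_ hcol
    positivity
  have h9 : (3 / 4 : ℝ) ^ 2 ≤ (∑ k ∈ K, Ex A (I k)) ^ 2 :=
    pow_le_pow_left₀ (by norm_num) hsum 2
  calc (9 / 16 : ℝ) = (3 / 4) ^ 2 := by norm_num
    _ ≤ K.card * ∑ k ∈ K, (Ex A (I k)) ^ 2 := le_trans h9 hcs
    _ ≤ K.card * Ex A (fun s => Ex A (fun t => if |s - t| ≤ δ then 1 else 0)) :=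
        mul_le_mul_of_nonneg_left hcol (by positivity)
    _ ≤ (4 / δ + 2) * Ex A (fun s => Ex A (fun t => if |s - t| ≤ δ then 1 else 0)) :=
        mul_le_mul_of_nonneg_right hcard hE0

/-- small ball estimate for weights in `[0, x]` -/
lemma small_ball (l : List ℝ) (x : ℝ) (hx0 : 0 < x) (hx1 : x ≤ 1) (hw : ∀ w ∈ l, 0 ≤ w ∧ w ≤ x)
    (hl : (l.map fun w => w ^ 2).sum ≤ 1) :
    x / 40 ≤ Ex l (fun t => if |t| ≤ 6 / 5 * x then 1 else 0) := by
  set l' := l.mergeSort (fun a b => decide (b ≤ a)) with hl'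
  have hperm : l'.Perm l := List.mergeSort_perm l _
  have hsort : l'.Pairwise (fun a b => b ≤ a) := by
    have := List.pairwise_mergeSort (le := fun a b : ℝ => decide (b ≤ a))
      (fun a b c h1 h2 => by
        simp only [decide_eq_true_eq] at *
        exact le_trans h2 h1)
      (fun a b => by
        simp only [Bool.or_eq_true, decide_eq_true_eq]
        exact le_total b a) l
    simpa using this
  obtain ⟨L, hL1, hL2, hL3⟩ := exists_pairs l'.length l' x le_rfl hx0.le hsort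
    (fun w hwl => hw w (hperm.mem_iff.mp hwl))
  have hL4 : ((L.map Prod.fst).map fun w => w ^ 2).sum ≤ 1 := by
    refine le_trans hL3 ?_
    rw [(hperm.map fun w => w ^ 2).sum_eq]
    exact hl
  have hEx : Ex l (fun t => if |t| ≤ 6 / 5 * x then 1 else 0) =
      Ex (L.map Prod.fst ++ L.map Prod.snd) (fun t => if |t| ≤ 6 / 5 * x then 1 else 0) := by
    rcases hL1 with h | h
    · rw [Ex_perm h, Ex_perm hperm]
    · rw [Ex_perm h, Ex_zero_cons, Ex_perm hperm]
  rw [hEx, Ex_append]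
  have h1 : Ex (L.map Prod.fst) (fun s => Ex (L.map Prod.fst)
      (fun t => if |s - t| ≤ x / 5 then 1 else 0)) ≤
      Ex (L.map Prod.fst) (fun s => Ex (L.map Prod.snd)
        (fun t => if |s + t| ≤ 6 / 5 * x then 1 else 0)) := by
    apply Ex_mono
    intro s
    rw [← Ex_comp_neg]
    apply Ex_compare
    intro a b hab
    have hab' : |a - b| ≤ x := le_trans hab hL2
    by_cases h2 : |s - -a| ≤ x / 5
    · have h3 : |s + b| ≤ 6 / 5 * x := by
        have : s + b = (s - -a) + -(a - b) := by ring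
        rw [this]
        refine le_trans (abs_add_le _ _) ?_
        rw [abs_neg]
        linarith
      simp only [h3, if_true]
      split_ifs <;> norm_num
    · rw [if_neg h2]
      split_ifs <;> norm_num
  refine le_trans ?_ h1
  have h4 := collision (L.map Prod.fst) hL4 (x / 5) (by positivity)
  set E := Ex (L.map Prod.fst) (fun s => Ex (L.map Prod.fst)
      (fun t => if |s - t| ≤ x / 5 then 1 else 0)) with hE
  have h5 : 4 / (x / 5) + 2 ≤ 22 / x := by
    rw [div_div_eq_mul_div]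
    have : (2 : ℝ) ≤ 2 / x := by
      rw [le_div_iff₀ hx0]
      linarith
    have h6 : 22 / x = 4 * 5 / x + 2 / x := by ring
    rw [h6]
    linarith
  have hE0 : 0 ≤ E := by
    apply Ex_nonneg
    intro s
    apply Ex_nonneg
    intro t
    split_ifs <;> norm_num
  have h7 : 9 / 16 ≤ 22 / x * E := le_trans h4 (mul_le_mul_of_nonneg_right h5 hE0)
  have h8 : 22 / x * E = 22 * E / x := by ring
  rw [h8, le_div_iff₀ hx0] at h7
  linarith

/-! ### One averaging step -/

lemma Ex_two (x y : ℝ) (l : List ℝ) :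
    Ex (x :: y :: l) (fun t => |t| ^ 3) =
      Ex l (fun u => (psi u (x + y) + psi u (x - y)) / 2) := by
  have h : (x :: y :: l).Perm (l ++ [x, y]) := by
    have := List.perm_append_comm (l₁ := [x, y]) (l₂ := l)
    simpa using this
  rw [Ex_perm h, Ex_append]
  apply Ex_congr
  intro u
  simp only [Ex, psi]
  have e1 : u + (0 + y + x) = u + (x + y) := by ring
  have e2 : u + (0 - y + x) = u + (x - y) := by ring
  have e3 : u + (0 + y - x) = u - (x - y) := by ring
  have e4 : u + (0 - y - x) = u - (x + y) := by ring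
  rw [e1, e2, e3, e4]
  ring

/-- Averaging the squares of the largest weight `x` and a weight `y` increases the third moment by
a definite multiple of `(x² - y²)²`. -/
lemma averaging_step (l : List ℝ) (x y z : ℝ) (hy : 0 ≤ y) (hyx : y ≤ x) (hx0 : 0 < x)
    (hz : 0 ≤ z) (hz2 : 2 * z ^ 2 = x ^ 2 + y ^ 2) (hw : ∀ w ∈ l, 0 ≤ w ∧ w ≤ x)
    (hl : x ^ 2 + (l.map fun w => w ^ 2).sum ≤ 1) :
    Ex (x :: y :: l) (fun t => |t| ^ 3) + 1 / 160000 * (x ^ 2 - y ^ 2) ^ 2 ≤
      Ex (z :: z :: l) (fun t => |t| ^ 3) := by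
  have hsum0 : 0 ≤ (l.map fun w => w ^ 2).sum := by
    apply List.sum_nonneg
    intro a ha
    obtain ⟨w, _, rfl⟩ := List.mem_map.mp ha
    positivity
  have hx1 : x ≤ 1 := by nlinarith
  rw [Ex_two, Ex_two]
  have hP : (z + z) ^ 2 = (x + y) ^ 2 + (x - y) ^ 2 := by
    linear_combination 2 * hz2
  have hgain : ∀ u : ℝ, (psi u (x + y) + psi u (x - y)) / 2 +
      (1 / 2000 * ((x + y) ^ 2 * (x - y) ^ 2) / x / 2) * (if |u| ≤ 6 / 5 * x then 1 else 0) ≤
      (psi u (z + z) + psi u (z - z)) / 2 := by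
    intro u
    rw [sub_self]
    have h0 := gain_nonneg (u := u) (P := z + z) (Q := x + y) (r := x - y) (by linarith)
      (by linarith) (by linarith) hP
    split_ifs with hu
    · have h1 := gain_lower (u := u) (P := z + z) (Q := x + y) (r := x - y) hx0 hu (by linarith)
        (by linarith) (by ring) (by linarith) hP
      have h2 : 1 / 2000 * ((x + y) ^ 2 * (x - y) ^ 2) / x ≤ gain u (z + z) (x + y) (x - y) := by
        rw [div_le_iff₀ hx0]
        linarith
      unfold gain at h2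
      linarith
    · unfold gain at h0
      linarith
  have h1 := Ex_mono l hgain
  rw [Ex_add, Ex_smul] at h1
  have h2 := small_ball l x hx0 hx1 hw (by nlinarith)
  have h3 : (x ^ 2 - y ^ 2) ^ 2 / 160000 ≤ 1 / 2000 * ((x + y) ^ 2 * (x - y) ^ 2) / x / 2 *
      Ex l (fun t => if |t| ≤ 6 / 5 * x then 1 else 0) := by
    have h4 : 0 ≤ 1 / 2000 * ((x + y) ^ 2 * (x - y) ^ 2) / x / 2 := by positivity
    refine le_trans (le_of_eq ?_) (mul_le_mul_of_nonneg_left h2 h4)
    field_simp
    ring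
  linarith

/-! ### From functions on `Fin n` to lists -/

lemma sum_signs : ∀ (n : ℕ) (a : Fin n → ℝ) (f : ℝ → ℝ),
    (∑ ε : Fin n → Bool, f (∑ i, (if ε i then 1 else -1) * a i)) / 2 ^ n =
      Ex (List.ofFn a) f := by
  intro n
  induction n with
  | zero => intro a f; simp [Ex]
  | succ n ih =>
    intro a f
    rw [List.ofFn_succ]
    simp only [Ex]
    rw [← ih, ← ih]
    have h1 : ∑ ε : Fin (n + 1) → Bool, f (∑ i, (if ε i then 1 else -1) * a i) =
        ∑ p : Bool × (Fin n → Bool), f (∑ i : Fin (n + 1),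
          (if (Fin.cons p.1 p.2 : Fin (n + 1) → Bool) i then 1 else -1) * a i) := by
      apply Fintype.sum_equiv (Fin.consEquiv (fun _ => Bool)).symm
      intro ε
      simp [Fin.consEquiv]
    rw [h1, Fintype.sum_prod_type, Fintype.sum_bool]
    simp only [Fin.sum_univ_succ, Fin.cons_zero, Fin.cons_succ, if_true]
    have e1 : ∀ ε : Fin n → Bool, (1 : ℝ) * a 0 + ∑ i : Fin n, (if ε i then 1 else -1) * a i.succ =
        ∑ i : Fin n, (if ε i then 1 else -1) * a i.succ + a 0 := fun ε => by ring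
    have e2 : ∀ ε : Fin n → Bool, (if (false = true) then (1 : ℝ) else -1) * a 0 +
        ∑ i : Fin n, (if ε i then 1 else -1) * a i.succ =
        ∑ i : Fin n, (if ε i then 1 else -1) * a i.succ - a 0 := fun ε => by
      simp only [Bool.false_eq_true, if_false]
      ring
    simp_rw [e1, e2]
    rw [pow_succ]
    field_simp

lemma thirdMoment_eq {n : ℕ} (a : Fin n → ℝ) :
    thirdMoment a = Ex (List.ofFn a) (fun t => |t| ^ 3) :=
  sum_signs n a (fun t => |t| ^ 3)

lemma ofFn_perm {n : ℕ} (a : Fin n → ℝ) (p q : Fin n) (hpq : p ≠ q) :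
    (List.ofFn a).Perm (a p :: a q :: (((Finset.univ.erase p).erase q).toList.map a)) := by
  have h1 : (List.ofFn a) = (List.finRange n).map a := List.ofFn_eq_map
  rw [h1]
  have h2 : (List.finRange n).Perm (p :: q :: ((Finset.univ.erase p).erase q).toList) := by
    rw [List.perm_ext_iff_of_nodup (List.nodup_finRange n)]
    · intro i
      simp only [List.mem_finRange, List.mem_cons, Finset.mem_toList, Finset.mem_erase,
        Finset.mem_univ, and_true, true_iff]
      tauto
    · rw [List.nodup_cons, List.nodup_cons]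
      refine ⟨?_, ?_, Finset.nodup_toList _⟩
      · simp [hpq]
      · simp
  simpa using h2.map a

lemma sum_split {n : ℕ} (g : Fin n → ℝ) (p q : Fin n) (hpq : p ≠ q) :
    ∑ i, g i = g p + (g q + ∑ i ∈ (Finset.univ.erase p).erase q, g i) := by
  rw [← Finset.add_sum_erase Finset.univ g (Finset.mem_univ p),
    ← Finset.add_sum_erase (Finset.univ.erase p) g (Finset.mem_erase.mpr ⟨hpq.symm, Finset.mem_univ q⟩)]

/-- the functional that is maximised over the simplex -/
noncomputable def Fn {n : ℕ} (b : Fin n → ℝ) : ℝ :=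
  thirdMoment (fun i => Real.sqrt (b i)) + 1 / 100000 * ∑ i, (b i - 1 / (n : ℝ)) ^ 2

lemma Fn_continuous {n : ℕ} : Continuous (Fn (n := n)) := by
  unfold Fn thirdMoment
  fun_prop

lemma improve {n : ℕ} (b : Fin n → ℝ) (hb : b ∈ stdSimplex ℝ (Fin n)) (p q : Fin n)
    (hmax : ∀ i, b i ≤ b p) (hlt : b q < b p) :
    ∃ b' ∈ stdSimplex ℝ (Fin n), Fn b < Fn b' := by
  classical
  have hpq : p ≠ q := by
    rintro rfl
    exact lt_irrefl _ hlt
  obtain ⟨hb0, hb1⟩ := hb
  set m := (b p + b q) / 2 with hm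
  set b' : Fin n → ℝ := fun i => if i = p ∨ i = q then m else b i with hb'
  have hbp : 0 < b p := lt_of_le_of_lt (hb0 q) hlt
  have hm0 : 0 ≤ m := by
    have := hb0 q
    linarith
  have hb'p : b' p = m := by simp [hb']
  have hb'q : b' q = m := by simp [hb']
  have hrest : ∀ i ∈ (Finset.univ.erase p).erase q, b' i = b i := by
    intro i hi
    rw [Finset.mem_erase, Finset.mem_erase] at hi
    simp [hb', hi.1, hi.2.1]
  have hb1' := hb1
  rw [sum_split b p q hpq] at hb1'
  refine ⟨b', ⟨?_, ?_⟩, ?_⟩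
  · intro i
    simp only [hb']
    split_ifs
    · exact hm0
    · exact hb0 i
  · rw [sum_split b' p q hpq, hb'p, hb'q, Finset.sum_congr rfl hrest]
    linarith
  · set l : List ℝ := ((Finset.univ.erase p).erase q).toList.map (fun i => Real.sqrt (b i)) with hl
    have hl' : ((Finset.univ.erase p).erase q).toList.map (fun i => Real.sqrt (b' i)) = l := by
      rw [hl]
      apply List.map_congr_left
      intro i hi
      rw [hrest i (Finset.mem_toList.mp hi)]
    have e1 : thirdMoment (fun i => Real.sqrt (b i)) =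
        Ex (Real.sqrt (b p) :: Real.sqrt (b q) :: l) (fun t => |t| ^ 3) := by
      rw [thirdMoment_eq, Ex_perm (ofFn_perm _ p q hpq)]
    have e2 : thirdMoment (fun i => Real.sqrt (b' i)) =
        Ex (Real.sqrt m :: Real.sqrt m :: l) (fun t => |t| ^ 3) := by
      rw [thirdMoment_eq, Ex_perm (ofFn_perm _ p q hpq), hl', hb'p, hb'q]
    have hsq : (l.map fun w => w ^ 2).sum = ∑ i ∈ (Finset.univ.erase p).erase q, b i := by
      rw [hl, List.map_map, ← Finset.sum_map_toList]
      congr 1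
      apply List.map_congr_left
      intro i _
      exact Real.sq_sqrt (hb0 i)
    have hstep := averaging_step l (Real.sqrt (b p)) (Real.sqrt (b q)) (Real.sqrt m)
      (Real.sqrt_nonneg _) (Real.sqrt_le_sqrt hlt.le) (Real.sqrt_pos.mpr hbp) (Real.sqrt_nonneg _)
      (by rw [Real.sq_sqrt hm0, Real.sq_sqrt hbp.le, Real.sq_sqrt (hb0 q)]; linarith)
      (by
        intro w hw
        rw [hl, List.mem_map] at hw
        obtain ⟨i, _, rfl⟩ := hw
        exact ⟨Real.sqrt_nonneg _, Real.sqrt_le_sqrt (hmax i)⟩)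
      (by
        rw [hsq, Real.sq_sqrt hbp.le]
        have := hb0 q
        linarith)
    rw [Real.sq_sqrt hbp.le, Real.sq_sqrt (hb0 q)] at hstep
    have hD : ∑ i, (b i - 1 / (n : ℝ)) ^ 2 =
        ∑ i, (b' i - 1 / (n : ℝ)) ^ 2 + (b p - b q) ^ 2 / 2 := by
      rw [sum_split (fun i => (b i - 1 / (n : ℝ)) ^ 2) p q hpq,
        sum_split (fun i => (b' i - 1 / (n : ℝ)) ^ 2) p q hpq]
      simp only [hb'p, hb'q]
      have : ∑ i ∈ (Finset.univ.erase p).erase q, (b' i - 1 / (n : ℝ)) ^ 2 =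
          ∑ i ∈ (Finset.univ.erase p).erase q, (b i - 1 / (n : ℝ)) ^ 2 := by
        apply Finset.sum_congr rfl
        intro i hi
        rw [hrest i hi]
      rw [this, hm]
      ring
    have hpos : 0 < (b p - b q) ^ 2 := by
      have : 0 < b p - b q := by linarith
      positivity
    unfold Fn
    rw [e1, e2, hD]
    nlinarith

/-- **Stability of the third-moment Khintchine inequality.** With `C₃ = 1/100000`, for every
`n ≥ 1` and every unit vector `a`, `E|S|³ ≤ E|S_n|³ - C₃ Σ (a_i² - 1/n)²`. -/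
theorem main (n : ℕ) (hn : 1 ≤ n) (a : Fin n → ℝ) (ha : ∑ i, a i ^ 2 = 1) :
    thirdMoment a ≤ thirdMoment (fun _ : Fin n => 1 / Real.sqrt n) -
      1 / 100000 * ∑ i, (a i ^ 2 - 1 / (n : ℝ)) ^ 2 := by
  have hn0 : (0 : ℝ) < n := by exact_mod_cast hn
  have : NeZero n := ⟨by omega⟩
  obtain ⟨b, hb, hbmax⟩ := (isCompact_stdSimplex ℝ (Fin n)).exists_isMaxOn
    ⟨fun i => a i ^ 2, ⟨fun i => sq_nonneg _, ha⟩⟩ (Fn_continuous (n := n)).continuousOn
  obtain ⟨p, hp⟩ := Finite.exists_max b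
  obtain ⟨q, hq⟩ := Finite.exists_min b
  have hpq : b p = b q := by
    by_contra hne
    have hlt : b q < b p := lt_of_le_of_ne (hq p) (fun h => hne h.symm)
    obtain ⟨b', hb', hlt'⟩ := improve b hb p q hp hlt
    exact absurd (hbmax hb') (not_le.mpr hlt')
  have hconst : ∀ i, b i = 1 / (n : ℝ) := by
    have h1 : ∀ i, b i = b p := fun i => le_antisymm (hp i) (hpq ▸ hq i)
    have h2 : ∑ i : Fin n, b i = n * b p := by
      rw [Finset.sum_congr rfl (fun i _ => h1 i)]
      simp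
    rw [hb.2] at h2
    intro i
    rw [h1 i]
    field_simp
    linarith
  have hFb : Fn b = thirdMoment (fun _ : Fin n => 1 / Real.sqrt n) := by
    unfold Fn
    have e1 : (fun i => Real.sqrt (b i)) = fun _ : Fin n => 1 / Real.sqrt n := by
      funext i
      rw [hconst i, Real.sqrt_div zero_le_one, Real.sqrt_one]
    rw [e1]
    simp [hconst]
  have h3 : Fn (fun i => a i ^ 2) ≤ Fn b :=
    hbmax (show (fun i => a i ^ 2) ∈ stdSimplex ℝ (Fin n) from ⟨fun i => sq_nonneg _, ha⟩)
  have h4 : Fn (fun i => a i ^ 2) = thirdMoment a + 1 / 100000 * ∑ i, (a i ^ 2 - 1 / (n : ℝ)) ^ 2 := by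
    unfold Fn
    congr 1
    rw [thirdMoment_eq, thirdMoment_eq a, ← Ex_abs (List.ofFn a), List.map_ofFn]
    congr 1
    congr 1
    funext i
    simp [Real.sqrt_sq_eq_abs]
  rw [h4, hFb] at h3
  linarith

/-- **Answer to the question: yes.** There is a constant `C₃ > 0` such that for every `n ≥ 1` and
every unit vector `a` in `ℝⁿ`, `E|S|³ ≤ E|S_n|³ - C₃ Σ (a_i² - 1/n)²`. -/
theorem result : ∃ C : ℝ, 0 < C ∧ ∀ (n : ℕ), 1 ≤ n → ∀ a : Fin n → ℝ, ∑ i, a i ^ 2 = 1 →
    thirdMoment a ≤ thirdMoment (fun _ : Fin n => 1 / Real.sqrt n) -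
      C * ∑ i, (a i ^ 2 - 1 / (n : ℝ)) ^ 2 :=
  ⟨1 / 100000, by norm_num, main⟩

end Pool.Agent.Results.MP_223ae3_pr.ThirdMoment
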